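import Pool.Agent.Helper10.QRH.StC
import Pool.Agent.Helper79.PNT.Main

/-! Project QRH, C5: ordinary primes in good cells and in the initial block. -/

set_option autoImplicit false
open Filter Topology
open scoped Classical

namespace Pool.Agent.Helper58.QRH
open Pool.Agent.Helper10.QRH

theorem decay (c C : ℝ) (hc : 0 < c) (hC : 0 < C) :
    ∃ K : ℕ, 1 ≤ K ∧ ∀ k : ℕ, K ≤ k → (2 : ℝ) ^ (-(c * k)) ≤ C / k := by
  have hr0 : 0 < (2 : ℝ) ^ (-c) := Real.rpow_pos_of_pos two_pos _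
  have hr1 : (2 : ℝ) ^ (-c) < 1 := Real.rpow_lt_one_of_one_lt_of_neg one_lt_two (by linarith)
  have h := tendsto_self_mul_const_pow_of_lt_one hr0.le hr1
  have h2 := (h.eventually (gt_mem_nhds hC)).and (eventually_ge_atTop 1)
  obtain ⟨K, hK⟩ := eventually_atTop.1 h2
  refine ⟨max K 1, le_max_right _ _, fun k hk => ?_⟩
  obtain ⟨h3, h4⟩ := hK k (le_trans (le_max_left _ _) hk)
  have hk0 : (0 : ℝ) < k := by exact_mod_cast h4
  rw [le_div_iff₀ hk0]
  have e1 : (2 : ℝ) ^ (-(c * k)) = ((2 : ℝ) ^ (-c)) ^ k := by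
    rw [← Real.rpow_natCast, ← Real.rpow_mul two_pos.le]
    congr 1
    ring
  rw [e1, mul_comm]
  exact h3.le

theorem ordGood (P : Par) (h0 : PhiFacts P) (h1 : SizeFacts P) (hc : CellFacts P) (hd : CdFacts P)
    (h4 : CL P) : OrdGood P := by
  obtain ⟨Ka, hKa⟩ := h1
  obtain ⟨Kb, hKb⟩ := h4
  have hν : 0 < P.ν := h0.small.1
  obtain ⟨Kc, hKc1, hKc⟩ := decay (0.9 * P.ν) (1 / 300) (by positivity) (by norm_num)
  refine ⟨max (max Ka Kb) Kc, fun k0 hk0 hF k hk j hj hb => ?_⟩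
  have hka : Ka ≤ k := le_trans (le_trans (le_trans (le_max_left _ _) (le_max_left _ _)) hk0) hk
  have hkb : Kb ≤ k0 := le_trans (le_trans (le_max_right _ _) (le_max_left _ _)) hk0
  have hkc : Kc ≤ k := le_trans (le_trans (le_max_right _ _) hk0) hk
  have hk1 : 1 ≤ k := le_trans hKc1 hkc
  have hkpos : (0 : ℝ) < k := by exact_mod_cast hk1
  obtain ⟨-, hek, hs1, hs2, -, -, -, -, -⟩ := hKa k hka
  have hdpos : 0 < P.d := by rw [h0.small.2.2.2.2.2.1]; positivity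
  -- membership in the cell
  have hx1 : 2 ^ k ≤ 2 ^ k + j * 2 ^ P.e k := Nat.le_add_right _ _
  have hjj : (j + 1) * 2 ^ P.e k ≤ 2 ^ k := by
    calc (j + 1) * 2 ^ P.e k ≤ 2 ^ (k - P.e k) * 2 ^ P.e k := Nat.mul_le_mul_right _ hj
      _ = 2 ^ k := by rw [← pow_add, Nat.sub_add_cancel hek]
  have hxh : 2 ^ k + j * 2 ^ P.e k + 2 ^ P.e k ≤ 2 ^ (k + 1) := by
    have : 2 ^ k + j * 2 ^ P.e k + 2 ^ P.e k = 2 ^ k + (j + 1) * 2 ^ P.e k := by ring
    rw [this, pow_succ]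
    omega
  set A := (P.cell k j).filter Nat.Prime with hA
  set B := (P.cell k j).filter (P.Ord k0) with hB
  set Cn := (P.cell k j).filter (fun p => p.Prime ∧ P.cand k0 p) with hCn
  have hP1 : P.P1 k0 ≤ 2 ^ k := by
    unfold Par.P1
    refine Nat.pow_le_pow_right two_pos ?_
    have h5 : P.η * k0 ≤ (k0 : ℝ) := by
      have := P.η1
      have h6 : (0 : ℝ) ≤ k0 := Nat.cast_nonneg _
      nlinarith
    have h7 : ⌊P.η * k0⌋₊ ≤ k0 := by
      have := Nat.floor_le_floor h5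
      simpa using this
    exact h7.trans hk
  have hsub : A ⊆ B ∪ Cn := by
    intro p hp
    rw [hA, Finset.mem_filter] at hp
    obtain ⟨hpc, hpp⟩ := hp
    obtain ⟨-, hlog, hidx⟩ := (hc.mem_cell hj).1 hpc
    by_cases hcand : P.cand k0 p
    · exact Finset.mem_union_right _ (Finset.mem_filter.2 ⟨hpc, hpp, hcand⟩)
    · refine Finset.mem_union_left _ (Finset.mem_filter.2 ⟨hpc, hpp, ?_, Or.inr ?_, hcand⟩)
      · have : 2 ^ k ≤ p := by
          have := (Finset.mem_Ico.1 hpc).1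
          omega
        exact hP1.trans this
      · unfold Par.badN
        rw [hlog, hidx]
        exact hb
  have hcard : (A.card : ℝ) ≤ B.card + Cn.card := by
    exact_mod_cast (Finset.card_le_card hsub).trans (Finset.card_union_le _ _)
  -- few candidate primes
  have hmm : ∀ p : ℕ, P.cand k0 p → ∃ m : ℕ, ∃ k', k0 ≤ k' ∧ (p, m) ∈ P.Cd k' := by
    rintro p ⟨k', hk', m, hm⟩
    exact ⟨m, k', hk', hm⟩
  let mm : ℕ → ℕ := fun p => if h : P.cand k0 p then (hmm p h).choose else 0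
  have hmm2 : ∀ p : ℕ, P.cand k0 p → ∃ k', k0 ≤ k' ∧ (p, mm p) ∈ P.Cd k' := by
    intro p hp
    have e1 : mm p = (hmm p hp).choose := dif_pos hp
    rw [e1]
    exact (hmm p hp).choose_spec
  have hCcard : (Cn.card : ℝ) ≤ (2 : ℝ) ^ P.e k * (2 : ℝ) ^ (-(0.9 * P.ν * k)) := by
    have hT : (Cn.image (fun p => (p, mm p, 1))).card = Cn.card := by
      refine Finset.card_image_of_injective _ ?_
      intro a b hab
      exact (Prod.mk.inj hab).1
    have h5 := hKb k0 hkb hF k hk (2 ^ k + j * 2 ^ P.e k) (2 ^ P.e k) hx1 hxh ?_ (7 * P.ν) (0.02 * P.ν)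
      (Or.inl ⟨rfl, rfl⟩) ?_ (Cn.image (fun p => (p, mm p, 1))) ?_
    · rw [hT] at h5
      push_cast at h5
      exact h5
    · push_cast
      refine hs2.trans (Real.rpow_le_rpow_of_exponent_le one_le_two ?_)
      nlinarith
    · push_cast
      exact hs1
    · intro y hy
      obtain ⟨p, hp, rfl⟩ := Finset.mem_image.1 hy
      rw [hCn, Finset.mem_filter] at hp
      obtain ⟨hpc, hpp, hcand⟩ := hp
      obtain ⟨hp0, hlog, hidx⟩ := (hc.mem_cell hj).1 hpc
      obtain ⟨k', hk', hCd⟩ := hmm2 p hcand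
      have hIco := Finset.mem_Ico.1 hpc
      have hpk : 2 ^ k ≤ p := by omega
      refine ⟨k', hk', hCd, ?_, ?_, ?_, Or.inl ?_⟩
      · simpa using hIco.1
      · have := hIco.2
        have e2 : 2 ^ k + (j + 1) * 2 ^ P.e k = 2 ^ k + j * 2 ^ P.e k + 2 ^ P.e k := by ring
        rw [e2] at this
        simpa using this
      · show (2 : ℝ) ^ ((k : ℝ) / 10) ≤ (p : ℝ)
        have h6 : (2 : ℝ) ^ ((k : ℝ) / 10) ≤ (2 : ℝ) ^ (k : ℝ) :=
          Real.rpow_le_rpow_of_exponent_le one_le_two (by linarith)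
        rw [Real.rpow_natCast] at h6
        refine h6.trans ?_
        exact_mod_cast hpk
      · show ¬ (mm p ∣ 1)
        intro hdvd
        have hm1 : mm p = 1 := Nat.dvd_one.1 hdvd
        rw [hm1] at hCd
        have hbl := hd.block hCd
        simp only [mul_one] at hbl
        have hbad : P.badN p := by
          have := hCd.2.2.2.2.2.2
          simpa using this
        unfold Par.badN at hbad
        rw [hlog, hidx] at hbad
        exact hb hbad
  have hdec := hKc k hkc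
  have hge : (2 : ℝ) ^ P.e k / (50 * k) ≤ A.card := not_lt.1 hb
  have hpos2 : (0 : ℝ) < (2 : ℝ) ^ P.e k := by positivity
  have h8 : (2 : ℝ) ^ P.e k * (2 : ℝ) ^ (-(0.9 * P.ν * k)) ≤ (2 : ℝ) ^ P.e k * (1 / 300 / k) :=
    mul_le_mul_of_nonneg_left hdec hpos2.le
  have h9 : (2 : ℝ) ^ P.e k / (60 * k) + (2 : ℝ) ^ P.e k * (1 / 300 / k) = (2 : ℝ) ^ P.e k / (50 * k) := by
    field_simp
    ring
  linarith

theorem pi_pow_tendsto :
    Tendsto (fun k : ℕ => (Nat.primeCounting (2 ^ k) : ℝ) * (k * Real.log 2) / 2 ^ k) atTop (𝓝 1) := by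
  have h1 : Tendsto (fun k : ℕ => (2 : ℝ) ^ k) atTop atTop := tendsto_pow_atTop_atTop_of_one_lt one_lt_two
  have h2 := Pool.Agent.Helper79.PNT.pi_tendsto.comp h1
  refine h2.congr (fun k => ?_)
  simp only [Function.comp_apply, Real.log_pow]
  have : ⌊(2 : ℝ) ^ k⌋₊ = 2 ^ k := by
    have : ((2 ^ k : ℕ) : ℝ) = (2 : ℝ) ^ k := by push_cast; rfl
    rw [← this, Nat.floor_natCast]
  rw [this]

theorem num_aux (m t X Y Z L : ℝ) (hm : 199 ≤ m) (ht : m ^ 2 / 2 ≤ t) (hL1 : L < 0.6931471808)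
    (hL2 : 0.6931471803 < L) (hX0 : 0 ≤ X) (hY0 : 0 ≤ Y) (ha : 0.99 * (2 * t) < X * ((m + 1) * L))
    (hb : Y * (m * L) < 1.01 * t) (hc : X ≤ Y + Z + 1) : 1.2 * t / (m + 1) ≤ Z := by
  have hm0 : 0 < m := by linarith
  have hL0 : 0 < L := by linarith
  have ht0 : 0 < t := by nlinarith
  have hX : 0.99 * (2 * t) / ((m + 1) * 0.6931471808) ≤ X := by
    rw [div_le_iff₀ (by positivity)]
    refine ha.le.trans ?_
    exact mul_le_mul_of_nonneg_left (mul_le_mul_of_nonneg_left hL1.le (by positivity)) hX0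
  have hYb : Y ≤ 1.01 * t / (m * 0.6931471803) := by
    rw [le_div_iff₀ (by positivity)]
    refine le_trans ?_ hb.le
    exact mul_le_mul_of_nonneg_left (mul_le_mul_of_nonneg_left hL2.le (by positivity)) hY0
  have hYb2 : Y ≤ 1.466 * t / (m + 1) := by
    refine hYb.trans ?_
    rw [div_le_div_iff₀ (by positivity) (by positivity)]
    have h1 : 1.01 * (m + 1) ≤ 1.466 * (m * 0.6931471803) := by linarith
    have := mul_le_mul_of_nonneg_left h1 ht0.le
    nlinarith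
  have hXb2 : 2.856 * t / (m + 1) ≤ X := by
    refine le_trans ?_ hX
    rw [div_le_div_iff₀ (by positivity) (by positivity)]
    have h1 : 2.856 * ((m + 1) * 0.6931471808) ≤ 0.99 * 2 * (m + 1) := by linarith
    have := mul_le_mul_of_nonneg_left h1 ht0.le
    nlinarith
  have hbig : 1 ≤ 0.19 * t / (m + 1) := by
    rw [le_div_iff₀ (by positivity)]
    nlinarith
  have e1 : 2.856 * t / (m + 1) - 1.466 * t / (m + 1) = 1.39 * t / (m + 1) := by ring
  have e2 : 1.39 * t / (m + 1) - 0.19 * t / (m + 1) = 1.2 * t / (m + 1) := by ring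
  linarith

theorem sq_le_pow (n : ℕ) : n ^ 2 ≤ 2 * 2 ^ n := by
  rcases Nat.lt_or_ge n 4 with h | h
  · interval_cases n <;> norm_num
  · induction n, h using Nat.le_induction with
    | base => norm_num
    | succ n hn ih =>
      have : 2 ^ (n + 1) = 2 * 2 ^ n := by ring
      rw [this]
      nlinarith

theorem primes_block : ∃ K : ℕ, 2 ≤ K ∧ ∀ k : ℕ, K ≤ k →
    0.6 * (2 : ℝ) ^ k / k ≤ (((Finset.Ico (2 ^ (k - 1)) (2 ^ k)).filter Nat.Prime).card : ℝ) := by
  have h1 := pi_pow_tendsto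
  have h2 : ∀ᶠ k : ℕ in atTop, 0.99 < (Nat.primeCounting (2 ^ k) : ℝ) * (k * Real.log 2) / 2 ^ k :=
    h1.eventually (lt_mem_nhds (by norm_num))
  have h3 : ∀ᶠ k : ℕ in atTop, (Nat.primeCounting (2 ^ k) : ℝ) * (k * Real.log 2) / 2 ^ k < 1.01 :=
    h1.eventually (gt_mem_nhds (by norm_num))
  obtain ⟨K1, hK1⟩ := eventually_atTop.1 (h2.and h3)
  refine ⟨max (K1 + 1) 200, le_trans (by norm_num) (le_max_right _ _), fun k hk => ?_⟩
  have hk1 : K1 + 1 ≤ k := le_trans (le_max_left _ _) hk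
  have hk2 : 200 ≤ k := le_trans (le_max_right _ _) hk
  obtain ⟨m, rfl⟩ : ∃ m, k = m + 1 := ⟨k - 1, by omega⟩
  have ha := (hK1 (m + 1) (by omega)).1
  have hb := (hK1 m (by omega)).2
  rw [Nat.add_sub_cancel]
  have hm : (199 : ℝ) ≤ m := by
    have : 199 ≤ m := by omega
    exact_mod_cast this
  have hpow : (0 : ℝ) < 2 ^ m := by positivity
  -- counting
  have hcount : (Nat.primeCounting (2 ^ (m + 1)) : ℝ) ≤ (Nat.primeCounting (2 ^ m) : ℝ) +
      (((Finset.Ico (2 ^ m) (2 ^ (m + 1))).filter Nat.Prime).card : ℝ) + 1 := by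
    have h5 : (Finset.range (2 ^ (m + 1) + 1)).filter Nat.Prime ⊆
        ((Finset.range (2 ^ m + 1)).filter Nat.Prime ∪ (Finset.Ico (2 ^ m) (2 ^ (m + 1))).filter Nat.Prime) ∪
          {2 ^ (m + 1)} := by
      intro p hp
      rw [Finset.mem_filter, Finset.mem_range] at hp
      by_cases h6 : p = 2 ^ (m + 1)
      · exact Finset.mem_union_right _ (Finset.mem_singleton.2 h6)
      · refine Finset.mem_union_left _ ?_
        by_cases h7 : p < 2 ^ m + 1
        · exact Finset.mem_union_left _ (Finset.mem_filter.2 ⟨Finset.mem_range.2 h7, hp.2⟩)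
        · exact Finset.mem_union_right _ (Finset.mem_filter.2 ⟨Finset.mem_Ico.2 ⟨by omega, by omega⟩, hp.2⟩)
    have h6 := (Finset.card_le_card h5).trans ((Finset.card_union_le _ _).trans
      (Nat.add_le_add_right (Finset.card_union_le _ _) _))
    have h7 : ∀ n, Nat.primeCounting n = ((Finset.range (n + 1)).filter Nat.Prime).card := by
      intro n
      rw [Nat.primeCounting, Nat.primeCounting', Nat.count_eq_card_filter_range]
    rw [Finset.card_singleton, ← h7, ← h7] at h6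
    exact_mod_cast h6
  have hfin : 0.6 * (2 : ℝ) ^ (m + 1) / ((m + 1 : ℕ) : ℝ) = 1.2 * 2 ^ m / (m + 1) := by
    push_cast
    ring
  rw [hfin]
  rw [lt_div_iff₀ (by positivity)] at ha
  rw [div_lt_iff₀ hpow] at hb
  push_cast at ha
  have hq : (m : ℝ) ^ 2 / 2 ≤ 2 ^ m := by
    have h12 : ((m ^ 2 : ℕ) : ℝ) ≤ ((2 * 2 ^ m : ℕ) : ℝ) := by exact_mod_cast sq_le_pow m
    push_cast at h12
    linarith
  refine num_aux m (2 ^ m) _ _ _ (Real.log 2) hm hq Real.log_two_lt_d9 Real.log_two_gt_d9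
    (Nat.cast_nonneg _) (Nat.cast_nonneg _) ?_ hb hcount
  have : (2 : ℝ) ^ (m + 1) = 2 * 2 ^ m := by ring
  rw [this] at ha
  exact ha

theorem ordInit (P : Par) (h0 : PhiFacts P) (h2 : CandSum P) : OrdInit P := by
  obtain ⟨Ka, hKa⟩ := h2
  obtain ⟨Kb, hKb2, hKb⟩ := primes_block
  obtain ⟨Kc, hKc1, hKc⟩ := decay P.κ 0.35 P.κ0 (by norm_num)
  have hg0 : 0 < P.g := h0.small.2.2.2.2.2.2.2.1
  have hg1 : P.g ≤ P.ν / 1000 := h0.small.2.2.2.2.2.2.2.2.1
  have hν1 : P.ν ≤ 1 / 1600 := h0.small.2.1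
  refine ⟨max (max Ka Kb) Kc, fun k0 hk0 hF => ?_⟩
  have hka : Ka ≤ k0 := le_trans (le_trans (le_max_left _ _) (le_max_left _ _)) hk0
  have hkb : Kb ≤ k0 := le_trans (le_trans (le_max_right _ _) (le_max_left _ _)) hk0
  have hkc : Kc ≤ k0 := le_trans (le_max_right _ _) hk0
  have hk2 : 2 ≤ k0 := le_trans hKb2 hkb
  have hkpos : (0 : ℝ) < k0 := by
    have : 0 < k0 := by omega
    exact_mod_cast this
  have hA := hKb k0 hkb
  set A := (Finset.Ico (2 ^ (k0 - 1)) (2 ^ k0)).filter Nat.Prime with hAdef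
  set B := (Finset.Ico (2 ^ (k0 - 1)) (2 ^ k0)).filter (P.Ord k0) with hB
  set Cn := (Finset.Ico (2 ^ (k0 - 1)) (2 ^ k0)).filter (fun p => p.Prime ∧ P.cand k0 p) with hCn
  have hP1 : P.P1 k0 ≤ 2 ^ (k0 - 1) := by
    unfold Par.P1
    refine Nat.pow_le_pow_right two_pos ?_
    have h5 : P.η * k0 ≤ ((k0 - 1 : ℕ) : ℝ) := by
      have h6 := P.η1
      have h7 : ((k0 - 1 : ℕ) : ℝ) = (k0 : ℝ) - 1 := by
        rw [Nat.cast_sub (by omega)]
        simp
      rw [h7]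
      have h8 : (2 : ℝ) ≤ k0 := by exact_mod_cast hk2
      nlinarith
    have := Nat.floor_le_floor h5
    simpa using this
  have hsub : A ⊆ B ∪ Cn := by
    intro p hp
    rw [hAdef, Finset.mem_filter, Finset.mem_Ico] at hp
    obtain ⟨⟨hp1, hp2⟩, hpp⟩ := hp
    by_cases hcand : P.cand k0 p
    · exact Finset.mem_union_right _ (Finset.mem_filter.2 ⟨Finset.mem_Ico.2 ⟨hp1, hp2⟩, hpp, hcand⟩)
    · exact Finset.mem_union_left _ (Finset.mem_filter.2 ⟨Finset.mem_Ico.2 ⟨hp1, hp2⟩, hpp,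
        hP1.trans hp1, Or.inl hp2, hcand⟩)
  have hcard : (A.card : ℝ) ≤ B.card + Cn.card := by
    exact_mod_cast (Finset.card_le_card hsub).trans (Finset.card_union_le _ _)
  have hCs := hKa k0 hka hF Cn (fun q hq => (Finset.mem_filter.1 hq).2.2)
  have hlow : (Cn.card : ℝ) * (2 : ℝ) ^ ((k0 : ℝ) * (-1 + P.κ / 2 + 4 * P.g)) ≤
      ∑ q ∈ Cn, (q : ℝ) ^ (-1 + P.κ / 2 + 4 * P.g) := by
    rw [← nsmul_eq_mul]
    refine Finset.card_nsmul_le_sum _ _ _ (fun q hq => ?_)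
    obtain ⟨hq1, hqp, -⟩ := Finset.mem_filter.1 hq
    have hq2 := (Finset.mem_Ico.1 hq1).2
    have hqpos : (0 : ℝ) < q := by exact_mod_cast hqp.pos
    rw [Real.rpow_mul two_pos.le, Real.rpow_natCast]
    refine Real.rpow_le_rpow_of_nonpos hqpos ?_ ?_
    · exact_mod_cast hq2.le
    · have := P.κ1
      linarith
  have hCcard : (Cn.card : ℝ) ≤ (2 : ℝ) ^ k0 * (2 : ℝ) ^ (-(P.κ * k0)) := by
    have h3 := hlow.trans hCs
    have hp : (0 : ℝ) < (2 : ℝ) ^ ((k0 : ℝ) * (-1 + P.κ / 2 + 4 * P.g)) := Real.rpow_pos_of_pos two_pos _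
    rw [← le_div_iff₀ hp, ← Real.rpow_sub two_pos] at h3
    refine h3.trans ?_
    rw [← Real.rpow_natCast, ← Real.rpow_add two_pos]
    refine Real.rpow_le_rpow_of_exponent_le one_le_two ?_
    have : 0 ≤ P.g * k0 := by positivity
    nlinarith
  have hdec := hKc k0 hkc
  have hpow : (0 : ℝ) < (2 : ℝ) ^ k0 := by positivity
  have h8 : (2 : ℝ) ^ k0 * (2 : ℝ) ^ (-(P.κ * k0)) ≤ (2 : ℝ) ^ k0 * (0.35 / k0) :=
    mul_le_mul_of_nonneg_left hdec hpow.le
  have h9 : (2 : ℝ) ^ k0 / (4 * k0) + (2 : ℝ) ^ k0 * (0.35 / k0) = 0.6 * (2 : ℝ) ^ k0 / k0 := by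
    field_simp
    ring
  linarith

end Pool.Agent.Helper58.QRH
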